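import Pool.Agent.J4H64.VC.Defs

set_option autoImplicit false

/-!
Polynomials in the adjacency bits and random vertex covers.
-/

namespace Pool.Agent.J4H64.LD

open DomAC0 Pool.Agent.J4H64.VC
open scoped Classical

/-- The value of the real polynomial `p` at the adjacency bits of the graph `G` (one variable for
every pair of vertices, with the value `1` for adjacent and `0` for nonadjacent vertices). -/
noncomputable def ev {n : ℕ} (p : MvPolynomial (Pairs n) ℝ) (G : SimpleGraph (Fin n)) : ℝ :=
  MvPolynomial.eval (fun e : Pairs n => if G.Adj e.1.1 e.1.2 then 1 else 0) p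

/-- Every independent set of `G` has at most `ε n` vertices. -/
def SmallInd {n : ℕ} (ε : ℝ) (G : SimpleGraph (Fin n)) : Prop :=
  ∀ I : Finset (Fin n), (∀ u ∈ I, ∀ v ∈ I, ¬ G.Adj u v) → (I.card : ℝ) ≤ ε * n

/-- `μ` is a probability distribution on the vertex covers of `G`. -/
def CoverDist {n : ℕ} (G : SimpleGraph (Fin n)) (μ : Finset (Fin n) → ℝ) : Prop :=
  (∀ A, 0 ≤ μ A) ∧ ∑ A, μ A = 1 ∧ ∀ A, μ A ≠ 0 → IsCover G A

end Pool.Agent.J4H64.LD
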