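import Pool.Agent.J4H64.VC.Main
import Pool.Agent.J4H64.LD.Defs

set_option autoImplicit false
set_option linter.unusedSectionVars false

/-!
Polynomials of degree at most the girth of the base graph have the same mean over the namings of
the disjoint copies and over the namings of the double covers.
-/

namespace Pool.Agent.J4H64.LD

open Finset DomAC0 Pool.Agent.J4H64.VC
open scoped Classical

section fact

variable {q n : ℕ} {B : SimpleGraph (Fin q)} {P : Type} [Fintype P] (ι : Fin q × P ↪ Fin n)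

/-- an adjacency is one fact, or impossible -/
theorem adj_fact (a b : Fin n) :
    (∃ φ : Ed B × P × P, ∀ ω, (gr B ι ω).Adj a b ↔ Holds ω φ) ∨ ∀ ω, ¬ (gr B ι ω).Adj a b := by
  by_cases h : ∃ φ : Ed B × P × P, (ι (la (sr B) φ) = a ∧ ι (lb (tg B) φ) = b) ∨
      (ι (la (sr B) φ) = b ∧ ι (lb (tg B) φ) = a)
  · obtain ⟨φ, hφ⟩ := h
    refine Or.inl ⟨φ, fun ω => ?_⟩
    rw [gr_adj]
    constructor
    · rintro ⟨e, x, h⟩
      have key : ∀ (c d : Fin n), ι (la (sr B) φ) = c → ι (lb (tg B) φ) = d →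
          ι (sr B e, x) = c → ι (tg B e, ω e x) = d → Holds ω φ := by
        intro c d h1 h2 h3 h4
        have h5 := ι.injective (h1.trans h3.symm)
        have h6 := ι.injective (h2.trans h4.symm)
        obtain ⟨e', x', z'⟩ := φ
        unfold la at h5
        unfold lb at h6
        simp only [Prod.mk.injEq] at h5 h6
        have h7 : e' = e := Subtype.ext (Prod.ext h5.1 h6.1)
        subst h7
        unfold Holds
        simp only
        rw [h5.2, h6.2]
      have cross : ∀ (c d : Fin n), ι (la (sr B) φ) = c → ι (lb (tg B) φ) = d →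
          ι (sr B e, x) = d → ι (tg B e, ω e x) = c → False := by
        intro c d h1 h2 h3 h4
        have h5 := ι.injective (h1.trans h4.symm)
        have h6 := ι.injective (h2.trans h3.symm)
        obtain ⟨e', x', z'⟩ := φ
        unfold la at h5
        unfold lb at h6
        simp only [Prod.mk.injEq] at h5 h6
        have h7 : sr B e' < tg B e' := e'.2.1
        have h8 : sr B e < tg B e := e.2.1
        rw [h5.1, h6.1] at h7
        exact absurd (h7.trans h8) (lt_irrefl _)
      rcases hφ with hφ | hφ <;> rcases h with h | h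
      · exact key a b hφ.1 hφ.2 h.1 h.2
      · exact (cross a b hφ.1 hφ.2 h.1 h.2).elim
      · exact (cross b a hφ.1 hφ.2 h.1 h.2).elim
      · exact key b a hφ.1 hφ.2 h.1 h.2
    · intro h
      refine ⟨φ.1, φ.2.1, ?_⟩
      unfold Holds at h
      rw [h]
      exact hφ
  · right
    intro ω
    rw [gr_adj]
    rintro ⟨e, x, h1⟩
    exact h ⟨(e, x, ω e x), h1⟩

/-- a set of adjacencies is a set of at most as many facts, or impossible -/
theorem adj_facts (S : Finset (Pairs n)) :
    (∃ κ : Finset (Ed B × P × P), κ.card ≤ S.card ∧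
      ∀ ω, (∀ e ∈ S, (gr B ι ω).Adj e.1.1 e.1.2) ↔ Sat ω κ) ∨
    ∀ ω, ¬ ∀ e ∈ S, (gr B ι ω).Adj e.1.1 e.1.2 := by
  by_cases h : ∃ e ∈ S, ∀ ω, ¬ (gr B ι ω).Adj e.1.1 e.1.2
  · obtain ⟨e, he, h⟩ := h
    exact Or.inr fun ω h' => h ω (h' e he)
  · push Not at h
    left
    have h1 : ∀ e ∈ S, ∃ φ : Ed B × P × P, ∀ ω, (gr B ι ω).Adj e.1.1 e.1.2 ↔ Holds ω φ := by
      intro e he
      rcases adj_fact (B := B) ι e.1.1 e.1.2 with h2 | h2
      · exact h2
      · obtain ⟨ω, hω⟩ := h e he
        exact absurd hω (h2 ω)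
    choose φ hφ using h1
    refine ⟨S.attach.image fun e => φ e.1 e.2, card_image_le.trans (by rw [card_attach]),
      fun ω => ?_⟩
    constructor
    · intro h2 ψ hψ
      obtain ⟨e, -, rfl⟩ := mem_image.1 hψ
      exact (hφ e.1 e.2 ω).1 (h2 e.1 e.2)
    · intro h2 e he
      exact (hφ e he ω).2 (h2 _ (mem_image.2 ⟨⟨e, he⟩, mem_attach _ _, rfl⟩))

end fact

section moments

variable {q n : ℕ} {B : SimpleGraph (Fin q)} {R : Type} [Fintype R]
  (κ : Fin q × Ps (Fin 1) R ↪ Fin n)

/-- few facts hold equally often in both cases -/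
theorem sat_eq {g₀ : ℕ} (hT : Tree (sr B) (tg B) g₀)
    (K : Finset (Ed B × Ps (Fin 1) R × Ps (Fin 1) R)) (hK : K.card ≤ g₀) :
    (univ.filter fun y => Sat (mk (sr B) (tg B) (fun _ => false) y) K).card =
      (univ.filter fun y => Sat (mk (sr B) (tg B) (fun _ => true) y) K).card := by
  have hS : ∀ g : Fin q → Equiv.Perm (Ps (Fin 1) R), Supp (univ : Finset (Fin 1)) g :=
    fun g v p hp => absurd (mem_univ _) hp
  have h1 := gauge (s := fun _ : Fin 1 => false) (s' := fun _ => true) (H := univ) (c₀ := 0)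
    (y := (1 : Fin q → Equiv.Perm (Ps (Fin 1) R))) hT (fun c hc => absurd (Subsingleton.elim c 0) hc) rfl (mem_univ _) K hK
  have h2 := gauge (s := fun _ : Fin 1 => true) (s' := fun _ => false) (H := univ) (c₀ := 0)
    (y := (1 : Fin q → Equiv.Perm (Ps (Fin 1) R))) hT (fun c hc => absurd (Subsingleton.elim c 0) hc) rfl (mem_univ _) K hK
  simp only [hS, true_and, one_mul] at h1 h2
  have h3 := le_antisymm h1 h2
  have e : ∀ (i j : Fintype (Fin q → Equiv.Perm (Ps (Fin 1) R)))
      (p : (Fin q → Equiv.Perm (Ps (Fin 1) R)) → Prop),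
      ((@univ _ i).filter p).card = ((@univ _ j).filter p).card := by
    intro i j p
    rw [Subsingleton.elim i j]
  exact (e _ _ _).trans (h3.trans (e _ _ _))

theorem adj_eq {g₀ : ℕ} (hT : Tree (sr B) (tg B) g₀) (S : Finset (Pairs n)) (hS : S.card ≤ g₀) :
    (univ.filter fun y => ∀ e ∈ S,
      (gr B κ (mk (sr B) (tg B) (fun _ => false) y)).Adj e.1.1 e.1.2).card =
    (univ.filter fun y => ∀ e ∈ S,
      (gr B κ (mk (sr B) (tg B) (fun _ => true) y)).Adj e.1.1 e.1.2).card := by
  rcases adj_facts (B := B) κ S with ⟨K, hK, h⟩ | h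
  · simp only [h]
    exact sat_eq hT K (hK.trans hS)
  · simp only [h]

theorem mono_val (m : Pairs n →₀ ℕ) (G : SimpleGraph (Fin n)) :
    (∏ i ∈ m.support, (if G.Adj i.1.1 i.1.2 then (1 : ℝ) else 0) ^ m i) =
      if ∀ e ∈ m.support, G.Adj e.1.1 e.1.2 then 1 else 0 := by
  split_ifs with h
  · refine prod_eq_one fun e he => ?_
    rw [if_pos (h e he), one_pow]
  · push Not at h
    obtain ⟨e, he, h⟩ := h
    refine prod_eq_zero he ?_
    rw [if_neg h, zero_pow (Finsupp.mem_support_iff.1 he)]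

theorem card_supp_le {n : ℕ} (p : MvPolynomial (Pairs n) ℝ) {m : Pairs n →₀ ℕ}
    (hm : m ∈ p.support) : m.support.card ≤ p.totalDegree := by
  refine le_trans ?_ (MvPolynomial.le_totalDegree hm)
  rw [Finsupp.sum]
  calc m.support.card = ∑ _e ∈ m.support, 1 := by simp
    _ ≤ _ := sum_le_sum fun e he => Nat.one_le_iff_ne_zero.2 (Finsupp.mem_support_iff.1 he)

/-- The means of a polynomial of small degree are the same. -/
theorem ev_eq {g₀ : ℕ} (hT : Tree (sr B) (tg B) g₀) (p : MvPolynomial (Pairs n) ℝ)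
    (hp : p.totalDegree ≤ g₀) :
    avg (fun y => ev p (gr B κ (mk (sr B) (tg B) (fun _ => false) y))) =
      avg (fun y => ev p (gr B κ (mk (sr B) (tg B) (fun _ => true) y))) := by
  unfold avg
  congr 1
  unfold ev
  simp only [MvPolynomial.eval_eq, mono_val]
  rw [sum_comm, sum_comm (s := univ)]
  refine sum_congr rfl fun m hm => ?_
  rw [← mul_sum, ← mul_sum, ← natCast_card_filter, ← natCast_card_filter,
    adj_eq κ hT m.support ((card_supp_le p hm).trans hp)]

end moments

end Pool.Agent.J4H64.LD
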